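import Pool.Agent.TFH.Defs

/-!
# The statement
-/

open Filter Topology

universe u

namespace Pool.Agent.TFH

/-- The statement of the theorem for a given pair of algebras. -/
def MainStatement (M N : Type u) [CStarAlgebra M] [TracialVN M] [CStarAlgebra N] [TracialVN N] :
    Prop :=
  IsFactorII1 M → PropertyT M → IsFactorII1 N → Haagerup N →
    ∀ ω : Ultrafilter ℕ, (ω : Filter ℕ) ≤ cofinite →
    ∀ θ : M →⋆ₐ[ℂ] UP (fun _ : ℕ => N) ω, (∀ x, UP.tr (fun _ : ℕ => N) ω (θ x) = tau x) →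
    ∃ D : ℕ → StarSubalgebra ℂ N, (∀ n, FiniteDimensional ℂ (D n)) ∧
      ∀ x, θ x ∈ upSub (fun _ : ℕ => N) ω D

end Pool.Agent.TFH
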