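import Pool.Agent.TFH.Defs

/-!
# Toolbox 1: the real trace, positivity, the 2-norm

Standing assumptions of all working modules:
`[CStarAlgebra N] [PartialOrder N] [StarOrderedRing N] [TracialVN N]`.
`tr x = re (tau x)` is the real trace.
-/

open Filter Topology

namespace Pool.Agent.TFH

variable {N : Type*} [CStarAlgebra N] [TracialVN N]

/-- The real part of the trace. -/
noncomputable def tr (x : N) : ℝ := (tau x).re

theorem tr_def (x : N) : tr x = (tau x).re := rfl

@[simp] theorem tr_zero : tr (0 : N) = 0 := by rw [tr, map_zero, Complex.zero_re]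

@[simp] theorem tr_one : tr (1 : N) = 1 := by rw [tr, tau_one, Complex.one_re]

theorem tr_add (x y : N) : tr (x + y) = tr x + tr y := by
  rw [tr, map_add, Complex.add_re]; rfl

theorem tr_sub (x y : N) : tr (x - y) = tr x - tr y := by
  rw [tr, map_sub, Complex.sub_re]; rfl

theorem tr_neg (x : N) : tr (-x) = -tr x := by
  rw [tr, map_neg, Complex.neg_re]; rfl

theorem tau_real_smul (r : ℝ) (x : N) : tau (r • x) = (r : ℂ) * tau x := by
  rw [← Complex.coe_smul, map_smul, smul_eq_mul]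

theorem tr_smul (r : ℝ) (x : N) : tr (r • x) = r * tr x := by
  rw [tr, tau_real_smul, Complex.re_ofReal_mul]; rfl

theorem tr_sum {ι : Type*} (s : Finset ι) (f : ι → N) :
    tr (∑ i ∈ s, f i) = ∑ i ∈ s, tr (f i) := by
  rw [tr, map_sum, Complex.re_sum]; rfl

theorem tr_comm (x y : N) : tr (x * y) = tr (y * x) := by rw [tr, tau_comm]; rfl

theorem tr_star (x : N) : tr (star x) = tr x := by
  rw [tr, tau_star, Complex.star_def, Complex.conj_re]; rfl

theorem two_sq_tr (x : N) : two x ^ 2 = tr (star x * x) := two_sq x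

theorem two_sq_tr' (x : N) : two x ^ 2 = tr (x * star x) := by rw [two_sq_tr, tr_comm]

theorem two_sq_sa {x : N} (hx : IsSelfAdjoint x) : two x ^ 2 = tr (x * x) := by
  rw [two_sq_tr, hx.star_eq]

theorem tr_star_mul_self_nonneg (x : N) : 0 ≤ tr (star x * x) := tau_pos x

theorem abs_tr_star_mul_le (x y : N) : |tr (star x * y)| ≤ two x * two y :=
  (Complex.abs_re_le_norm _).trans (norm_tau_mul_le x y)

theorem norm_tau_mul_le' (x y : N) : ‖tau (x * y)‖ ≤ two x * two y := by
  have h := norm_tau_mul_le (star x) y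
  rwa [star_star, two_star] at h

theorem abs_tr_mul_le (x y : N) : |tr (x * y)| ≤ two x * two y :=
  (Complex.abs_re_le_norm _).trans (norm_tau_mul_le' x y)

theorem tr_mul_le_two (x y : N) : tr (x * y) ≤ two x * two y :=
  (le_abs_self _).trans (abs_tr_mul_le x y)

theorem abs_tr_le (x : N) : |tr x| ≤ two x := (Complex.abs_re_le_norm _).trans (norm_tau_le x)

theorem two_smul_real (r : ℝ) (x : N) : two (r • x) = |r| * two x := by
  rw [← Complex.coe_smul, two_smul', Complex.norm_real, Real.norm_eq_abs]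

theorem two_add_sq (x y : N) : two (x + y) ^ 2 = two x ^ 2 + 2 * tr (star x * y) + two y ^ 2 := by
  rw [two_sq_tr, two_sq_tr, two_sq_tr]
  have e : star (x + y) * (x + y) = star x * x + star x * y + star y * x + star y * y := by
    rw [star_add]; noncomm_ring
  have h : tr (star y * x) = tr (star x * y) := by
    rw [← tr_star (star x * y), star_mul, star_star]
  rw [e, tr_add, tr_add, tr_add, h]
  ring

theorem two_sub_sq (x y : N) : two (x - y) ^ 2 = two x ^ 2 - 2 * tr (star x * y) + two y ^ 2 := by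
  rw [sub_eq_add_neg, two_add_sq, two_neg, mul_neg, tr_neg]
  ring

theorem two_mul_unitary {u : N} (hu : u * star u = 1) (x : N) : two (x * u) = two x := by
  have h : two (x * u) ^ 2 = two x ^ 2 := by
    rw [two_sq_tr', two_sq_tr', star_mul]
    have : x * u * (star u * star x) = x * (u * star u) * star x := by noncomm_ring
    rw [this, hu, mul_one]
  exact (sq_eq_sq₀ (two_nonneg _) (two_nonneg _)).1 h

theorem two_unitary_mul {u : N} (hu : star u * u = 1) (x : N) : two (u * x) = two x := by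
  have h : two (u * x) ^ 2 = two x ^ 2 := by
    rw [two_sq_tr, two_sq_tr, star_mul]
    have : star x * star u * (u * x) = star x * (star u * u) * x := by noncomm_ring
    rw [this, hu, mul_one]
  exact (sq_eq_sq₀ (two_nonneg _) (two_nonneg _)).1 h

theorem two_sum_le {ι : Type*} (s : Finset ι) (f : ι → N) :
    two (∑ i ∈ s, f i) ≤ ∑ i ∈ s, two (f i) := by
  classical
  induction s using Finset.induction_on with
  | empty => simp [two_zero]
  | insert a s ha ih =>
    rw [Finset.sum_insert ha, Finset.sum_insert ha]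
    exact (two_add_le _ _).trans (by gcongr)

theorem two_mul_mul_le (x y z : N) : two (x * y * z) ≤ ‖x‖ * two y * ‖z‖ :=
  (two_mul_le' _ _).trans (mul_le_mul_of_nonneg_right (two_mul_le _ _) (norm_nonneg _))

section order

variable [PartialOrder N] [StarOrderedRing N]

theorem tr_nonneg {x : N} (hx : 0 ≤ x) : 0 ≤ tr x := by
  obtain ⟨z, rfl⟩ := CStarAlgebra.nonneg_iff_eq_star_mul_self.1 hx
  exact tau_pos z

theorem tr_mono {x y : N} (h : x ≤ y) : tr x ≤ tr y := by
  have := tr_nonneg (sub_nonneg.2 h)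
  rw [tr_sub] at this
  linarith

theorem tau_eq_tr {x : N} (hx : IsSelfAdjoint x) : tau x = (tr x : ℂ) := by
  have h := tau_star x
  rw [hx.star_eq] at h
  exact (Complex.conj_eq_iff_re.1 h.symm).symm

theorem eq_zero_of_tr {x : N} (hx : 0 ≤ x) (h : tr x = 0) : x = 0 := by
  obtain ⟨z, rfl⟩ := CStarAlgebra.nonneg_iff_eq_star_mul_self.1 hx
  have h1 : two z = 0 := by
    have : two z ^ 2 = 0 := h ▸ two_sq_tr z
    exact pow_eq_zero_iff (two_ne_zero) |>.1 this
  rw [eq_zero_of_two h1]
  simp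

theorem tr_pos_of_ne_zero {x : N} (hx : 0 ≤ x) (h : x ≠ 0) : 0 < tr x :=
  lt_of_le_of_ne (tr_nonneg hx) fun e => h (eq_zero_of_tr hx e.symm)

theorem tr_conj_nonneg {a : N} (ha : 0 ≤ a) (x : N) : 0 ≤ tr (star x * a * x) :=
  tr_nonneg (star_left_conjugate_nonneg ha x)

theorem tr_conj_nonneg' {a : N} (ha : 0 ≤ a) (x : N) : 0 ≤ tr (x * a * star x) :=
  tr_nonneg (star_right_conjugate_nonneg ha x)

theorem tr_mul_nonneg {a b : N} (ha : 0 ≤ a) (hb : 0 ≤ b) : 0 ≤ tr (a * b) := by
  obtain ⟨z, rfl⟩ := CStarAlgebra.nonneg_iff_eq_star_mul_self.1 hb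
  have e : tr (a * (star z * z)) = tr (z * a * star z) := by
    rw [← mul_assoc, tr_comm, mul_assoc]
  rw [e]
  exact tr_conj_nonneg' ha z

/-- Monotonicity of the trace of a product: `a ≥ 0`, `b ≤ c`. -/
theorem tr_mul_mono {a b c : N} (ha : 0 ≤ a) (h : b ≤ c) : tr (a * b) ≤ tr (a * c) := by
  have := tr_mul_nonneg ha (sub_nonneg.2 h)
  rw [mul_sub, tr_sub] at this
  linarith

theorem tr_mul_mono' {a b c : N} (ha : 0 ≤ a) (h : b ≤ c) : tr (b * a) ≤ tr (c * a) := by
  rw [tr_comm b, tr_comm c]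
  exact tr_mul_mono ha h

theorem le_norm_smul_one {x : N} (hx : IsSelfAdjoint x) : x ≤ ‖x‖ • (1 : N) := by
  have h := hx.le_algebraMap_norm_self
  rwa [Algebra.algebraMap_eq_smul_one] at h

theorem tr_mul_le_norm {a x : N} (ha : 0 ≤ a) (hx : IsSelfAdjoint x) :
    tr (a * x) ≤ ‖x‖ * tr a := by
  have h := tr_mul_mono ha (le_norm_smul_one hx)
  rwa [mul_smul_comm, mul_one, tr_smul] at h

/-- `0 ≤ x`, `‖x‖ ≤ C` gives `‖x‖₂² ≤ C tr x`. -/
theorem two_sq_le_of_norm_le {x : N} (hx : 0 ≤ x) {C : ℝ} (hC : ‖x‖ ≤ C) :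
    two x ^ 2 ≤ C * tr x := by
  rw [two_sq_sa (IsSelfAdjoint.of_nonneg hx)]
  exact (tr_mul_le_norm hx (IsSelfAdjoint.of_nonneg hx)).trans
    (mul_le_mul_of_nonneg_right hC (tr_nonneg hx))

theorem two_proj {p : N} (hp : IsStarProjection p) : two p ^ 2 = tr p := by
  rw [two_sq_sa hp.isSelfAdjoint, hp.isIdempotentElem]

theorem proj_nonneg {p : N} (hp : IsStarProjection p) : 0 ≤ p := by
  rw [← hp.isIdempotentElem]
  nth_rewrite 1 [← hp.isSelfAdjoint.star_eq]
  exact star_mul_self_nonneg p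

theorem proj_le_one {p : N} (hp : IsStarProjection p) : p ≤ 1 := by
  have := proj_nonneg hp.one_sub
  exact sub_nonneg.1 this

theorem tr_proj_pos {p : N} (hp : IsStarProjection p) (h : p ≠ 0) : 0 < tr p :=
  tr_pos_of_ne_zero (proj_nonneg hp) h

theorem norm_proj_le {p : N} (hp : IsStarProjection p) : ‖p‖ ≤ 1 := by
  have h1 : ‖p‖ * ‖p‖ = ‖p‖ := by
    rw [← CStarRing.norm_star_mul_self, hp.isSelfAdjoint.star_eq, hp.isIdempotentElem]
  rcases eq_or_ne ‖p‖ 0 with h | h
  · rw [h]; norm_num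
  · have := mul_left_cancel₀ h (h1.trans (mul_one _).symm)
    rw [this]

end order

end Pool.Agent.TFH
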