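import Mathlib

/-!
# Property (T) factors in ultrapowers of Haagerup factors: the definitions

* `TracialVN A`: the C*-algebra `A` is a von Neumann algebra with a faithful normal tracial state
  (abstract form: a faithful tracial state `tau` for which the unit ball of `A` is complete in the
  2-norm `two x = tau (x* x)^{1/2}`);
* `IsFactorII1 A`: trivial centre and infinite dimension;
* `Bimodule M H`: the Hilbert space `H` is a correspondence, i.e. it carries commuting normal
  *-representations of `M` and of the opposite algebra;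
* `PropertyT M`: property (T) of Connes and Jones;
* `Haagerup N`: the Haagerup property;
* `UP A ω`: the tracial ultraproduct of a sequence of algebras, `UP (fun _ => N) ω` the ultrapower;
* `upSub`: the ultraproduct of a sequence of *-subalgebras, a subset of the ultraproduct.
-/

open Filter Topology

universe u

namespace Pool.Agent.TFH

/-- A tracial von Neumann algebra: a unital C*-algebra `A` with a faithful tracial state `tau` such
that the (norm) unit ball is complete for the 2-norm `tau (x* x)^{1/2}`. -/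
class TracialVN (A : Type*) [CStarAlgebra A] where
  /-- the trace -/
  tau : A →ₗ[ℂ] ℂ
  tau_one : tau 1 = 1
  tau_comm : ∀ x y, tau (x * y) = tau (y * x)
  tau_nonneg : ∀ x, ∃ r : ℝ, 0 ≤ r ∧ tau (star x * x) = r
  tau_faithful : ∀ x, tau (star x * x) = 0 → x = 0
  complete : ∀ f : ℕ → A, (∀ n, ‖f n‖ ≤ 1) →
    (∀ ε : ℝ, 0 < ε → ∃ K : ℕ, ∀ m n : ℕ, K ≤ m → K ≤ n →
      (tau (star (f m - f n) * (f m - f n))).re < ε) →
    ∃ x : A, ‖x‖ ≤ 1 ∧ Tendsto (fun n => (tau (star (f n - x) * (f n - x))).re) atTop (𝓝 0)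

export TracialVN (tau)

/-- The 2-norm `tau (x* x)^{1/2}`. -/
noncomputable def two {A : Type*} [CStarAlgebra A] [TracialVN A] (x : A) : ℝ :=
  Real.sqrt (tau (star x * x)).re

/-- A II₁ factor: a tracial von Neumann algebra with trivial centre and infinite dimension. -/
def IsFactorII1 (A : Type*) [CStarAlgebra A] [TracialVN A] : Prop :=
  ¬ FiniteDimensional ℂ A ∧ ∀ z : A, (∀ x, z * x = x * z) → ∃ c : ℂ, z = algebraMap ℂ A c

/-! ### Correspondences and property (T) -/

/-- A *-representation (of `M` or of its opposite) is normal: for every vector `ξ` the map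
`x ↦ π x ξ` is continuous at `0` from the unit ball with the 2-norm. -/
def NormalRep {M : Type*} [CStarAlgebra M] [TracialVN M] {H : Type*} [NormedAddCommGroup H]
    (π : M → H → H) : Prop :=
  ∀ ξ : H, ∀ ε : ℝ, 0 < ε → ∃ δ : ℝ, 0 < δ ∧ ∀ x : M, ‖x‖ ≤ 1 → two x ≤ δ → ‖π x ξ‖ ≤ ε

/-- The structure of an `M`-`M` correspondence on the Hilbert space `H`: commuting normal
*-representations `l` of `M` and `r` of the opposite algebra of `M`. -/
structure Bimodule (M : Type*) [CStarAlgebra M] [TracialVN M] (H : Type*) [NormedAddCommGroup H]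
    [InnerProductSpace ℂ H] [CompleteSpace H] where
  /-- the left action -/
  l : M →⋆ₐ[ℂ] (H →L[ℂ] H)
  /-- the right action -/
  r : Mᵐᵒᵖ →⋆ₐ[ℂ] (H →L[ℂ] H)
  comm : ∀ (x : M) (y : Mᵐᵒᵖ) (ξ : H), l x (r y ξ) = r y (l x ξ)
  l_normal : NormalRep fun (x : M) (ξ : H) => l x ξ
  r_normal : NormalRep fun (x : M) (ξ : H) => r (MulOpposite.op x) ξ

/-- Property (T) of Connes and Jones. -/
def PropertyT (M : Type u) [CStarAlgebra M] [TracialVN M] : Prop :=
  ∀ ε : ℝ, 0 < ε → ∃ (F : Finset M) (δ : ℝ), 0 < δ ∧
    ∀ (H : Type u) [NormedAddCommGroup H] [InnerProductSpace ℂ H] [CompleteSpace H]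
      (B : Bimodule M H) (ξ : H), ‖ξ‖ = 1 →
      (∀ x ∈ F, ‖B.l x ξ - B.r (MulOpposite.op x) ξ‖ < δ) →
      ∃ η : H, (∀ x : M, B.l x η = B.r (MulOpposite.op x) η) ∧ ‖η - ξ‖ < ε

/-! ### The Haagerup property -/

/-- The linear map `φ` is completely positive: `∑ y_i* φ(x_i* x_j) y_j ≥ 0` for all `x_i`, `y_i`
(an element of a C*-algebra is positive iff it is of the form `z* z`). -/
def IsCP {N : Type*} [CStarAlgebra N] (φ : N →ₗ[ℂ] N) : Prop :=
  ∀ (n : ℕ) (x y : Fin n → N),
    ∃ z : N, ∑ i, ∑ j, star (y i) * φ (star (x i) * x j) * y j = star z * z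

/-- The (completely) positive map `φ` is normal: it is continuous at `0` from the unit ball to `N`
for the 2-norm. -/
def IsNormalMap {N : Type*} [CStarAlgebra N] [TracialVN N] (φ : N →ₗ[ℂ] N) : Prop :=
  ∀ ε : ℝ, 0 < ε → ∃ δ : ℝ, 0 < δ ∧ ∀ x : N, ‖x‖ ≤ 1 → two x ≤ δ → two (φ x) ≤ ε

/-- The map `φ` induces a compact operator on `L²(N, tau)`: the image of the unit ball of the
2-norm is totally bounded in the 2-norm. -/
def IsL2Compact {N : Type*} [CStarAlgebra N] [TracialVN N] (φ : N →ₗ[ℂ] N) : Prop :=
  ∀ ε : ℝ, 0 < ε → ∃ S : Finset N, ∀ x : N, two x ≤ 1 → ∃ s ∈ S, two (φ x - s) ≤ ε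

/-- The Haagerup property: there are normal trace preserving completely positive maps `φ k` with
`φ k 1 ≤ 1`, each inducing a compact operator on `L²(N, tau)`, which converge to the identity
pointwise in the 2-norm. -/
def Haagerup (N : Type*) [CStarAlgebra N] [TracialVN N] : Prop :=
  ∃ φ : ℕ → N →ₗ[ℂ] N, (∀ k, IsCP (φ k)) ∧ (∀ k, IsNormalMap (φ k)) ∧
    (∀ k x, tau (φ k x) = tau x) ∧ (∀ k, ∃ z : N, 1 - φ k 1 = star z * z) ∧
    (∀ k, IsL2Compact (φ k)) ∧ ∀ x, Tendsto (fun k => two (φ k x - x)) atTop (𝓝 0)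

/-! ### The 2-norm -/

section two

variable {A : Type*} [CStarAlgebra A] [TracialVN A]

theorem tau_pos (x : A) : 0 ≤ (tau (star x * x)).re := by
  obtain ⟨r, h0, h⟩ := TracialVN.tau_nonneg x
  rw [h]
  exact h0

theorem tau_im (x : A) : (tau (star x * x)).im = 0 := by
  obtain ⟨r, h0, h⟩ := TracialVN.tau_nonneg x
  rw [h]
  exact Complex.ofReal_im r

theorem tau_comm (x y : A) : tau (x * y) = tau (y * x) := TracialVN.tau_comm x y

theorem tau_one : tau (1 : A) = 1 := TracialVN.tau_one

theorem tau_star (x : A) : tau (star x) = star (tau x) := by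
  -- polarisation
  have h1 := tau_im (1 + x)
  have h2 := tau_im (1 + Complex.I • x)
  have h3 := tau_im x
  have e1 : star (1 + x) * (1 + x) = 1 + x + star x + star x * x := by
    rw [star_add, star_one]; noncomm_ring
  have e2 : star (1 + Complex.I • x) * (1 + Complex.I • x) =
      1 + Complex.I • x - Complex.I • star x + star x * x := by
    rw [star_add, star_one, star_smul, add_mul, mul_add, mul_add, one_mul, mul_one, one_mul,
      smul_mul_smul_comm]
    have : star Complex.I * Complex.I = 1 := by
      simp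
    rw [this, one_smul]
    have h : star Complex.I = - Complex.I := by simp
    rw [h, neg_smul]
    abel
  rw [e1, map_add, map_add, map_add, tau_one] at h1
  rw [e2, map_add, map_sub, map_add, tau_one, map_smul, map_smul] at h2
  have e3 : (star (tau x) : ℂ) = (starRingEnd ℂ) (tau x) := rfl
  apply Complex.ext
  · rw [e3, Complex.conj_re]
    simp only [smul_eq_mul, Complex.add_im, Complex.sub_im, Complex.mul_im, Complex.I_re,
      Complex.I_im, Complex.one_im, zero_mul, one_mul, zero_add] at h2
    rw [h3] at h2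
    linarith
  · rw [e3, Complex.conj_im]
    simp only [Complex.add_im, Complex.one_im, zero_add] at h1
    rw [h3] at h1
    linarith

theorem two_nonneg (x : A) : 0 ≤ two x := Real.sqrt_nonneg _

theorem two_sq (x : A) : two x ^ 2 = (tau (star x * x)).re := Real.sq_sqrt (tau_pos x)

/-- The semi-inner product `tau (x* y)`. -/
@[reducible] noncomputable def trCore : PreInnerProductSpace.Core ℂ A where
  inner x y := tau (star x * y)
  conj_inner_symm x y := by
    change star (tau (star y * x)) = tau (star x * y)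
    rw [← tau_star, star_mul, star_star]
  re_inner_nonneg x := tau_pos x
  add_left x y z := by rw [star_add, add_mul, map_add]
  smul_left x y r := by
    rw [star_smul, smul_mul_assoc, map_smul]; rfl

theorem tau_eq (x : A) : tau (star x * x) = ((two x ^ 2 : ℝ) : ℂ) := by
  apply Complex.ext
  · rw [two_sq, Complex.ofReal_re]
  · rw [tau_im, Complex.ofReal_im]

theorem two_zero : two (0 : A) = 0 := by
  unfold two; simp

theorem two_one : two (1 : A) = 1 := by
  unfold two
  rw [star_one, one_mul, tau_one]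
  simp

theorem eq_zero_of_two {x : A} (h : two x = 0) : x = 0 := by
  apply TracialVN.tau_faithful
  rw [tau_eq, h]
  simp

theorem two_smul' (c : ℂ) (x : A) : two (c • x) = ‖c‖ * two x := by
  unfold two
  rw [star_smul, smul_mul_smul_comm, map_smul, smul_eq_mul]
  have h : star c * c = ((‖c‖ ^ 2 : ℝ) : ℂ) := by
    have := Complex.conj_mul' c
    push_cast
    exact this
  rw [h, Complex.re_ofReal_mul, Real.sqrt_mul (by positivity), Real.sqrt_sq (norm_nonneg c)]

theorem two_neg (x : A) : two (-x) = two x := by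
  unfold two
  rw [star_neg, neg_mul_neg]

theorem two_star (x : A) : two (star x) = two x := by
  unfold two
  rw [star_star, tau_comm]

theorem two_sub_comm (x y : A) : two (x - y) = two (y - x) := by
  rw [← two_neg, neg_sub]

theorem norm_tau_mul_le (x y : A) : ‖tau (star x * y)‖ ≤ two x * two y := by
  let _ : PreInnerProductSpace.Core ℂ A := trCore
  have h := InnerProductSpace.Core.norm_inner_le_norm (𝕜 := ℂ) x y
  exact h

theorem norm_tau_le (x : A) : ‖tau x‖ ≤ two x := by
  have h := norm_tau_mul_le (1 : A) x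
  rwa [star_one, one_mul, two_one, one_mul] at h

theorem two_add_le (x y : A) : two (x + y) ≤ two x + two y := by
  have hx := two_nonneg x
  have hy := two_nonneg y
  refine Real.sqrt_le_iff.2 ⟨by positivity, ?_⟩
  rw [star_add, add_mul, mul_add, mul_add, map_add, map_add, map_add, Complex.add_re,
    Complex.add_re, Complex.add_re, ← two_sq, ← two_sq]
  have h1 : (tau (star x * y)).re ≤ two x * two y :=
    (Complex.re_le_norm _).trans (norm_tau_mul_le x y)
  have h2 : (tau (star y * x)).re ≤ two y * two x :=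
    (Complex.re_le_norm _).trans (norm_tau_mul_le y x)
  nlinarith

theorem two_sub_le (x y : A) : two (x - y) ≤ two x + two y := by
  rw [sub_eq_add_neg, ← two_neg y]
  exact two_add_le x (-y)

theorem two_sub_le_sub (x y z : A) : two (x - z) ≤ two (x - y) + two (y - z) := by
  have := two_add_le (x - y) (y - z)
  rwa [sub_add_sub_cancel] at this

theorem two_mul_le (x y : A) : two (x * y) ≤ ‖x‖ * two y := by
  let _ : PartialOrder A := CStarAlgebra.spectralOrder A
  have _ : StarOrderedRing A := CStarAlgebra.spectralOrderedRing A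
  refine Real.sqrt_le_iff.2 ⟨mul_nonneg (norm_nonneg _) (two_nonneg _), ?_⟩
  rw [mul_pow, two_sq]
  have h : 0 ≤ (algebraMap ℝ A (‖x‖ ^ 2)) - star x * x := by
    rw [sub_nonneg, sq, ← CStarRing.norm_star_mul_self (x := x)]
    exact IsSelfAdjoint.le_algebraMap_norm_self (a := star x * x) (by exact IsSelfAdjoint.star_mul_self x)
  obtain ⟨z, hz⟩ := CStarAlgebra.nonneg_iff_eq_star_mul_self.1 h
  have e : tau (star (z * y) * (z * y)) =
      ((‖x‖ ^ 2 : ℝ) : ℂ) * tau (star y * y) - tau (star (x * y) * (x * y)) := by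
    have e1 : star (z * y) * (z * y) =
        ((‖x‖ ^ 2 : ℝ) : ℂ) • (star y * y) - star (x * y) * (x * y) := by
      rw [star_mul, star_mul]
      have : star y * star z * (z * y) = star y * (star z * z) * y := by noncomm_ring
      rw [this, ← hz, mul_sub, sub_mul, Algebra.algebraMap_eq_smul_one, mul_smul_comm, mul_one,
        smul_mul_assoc]
      have e2 : star y * star x * (x * y) = star y * (star x * x) * y := by noncomm_ring
      rw [e2]
      rfl
    rw [e1, map_sub, map_smul, smul_eq_mul]
  have h2 := tau_pos (z * y)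
  rw [e, Complex.sub_re, Complex.re_ofReal_mul] at h2
  linarith

theorem two_mul_le' (x y : A) : two (x * y) ≤ two x * ‖y‖ := by
  rw [← two_star, star_mul]
  refine (two_mul_le _ _).trans ?_
  rw [norm_star, two_star, mul_comm]

theorem two_le_norm (x : A) : two x ≤ ‖x‖ := by
  have h := two_mul_le x 1
  rwa [mul_one, two_one, mul_one] at h

end two

/-! ### Tracial ultraproducts -/

section UP

variable (A : ℕ → Type*) [∀ i, CStarAlgebra (A i)]

/-- The *-algebra of norm bounded sequences. -/
def BSeq : StarSubalgebra ℂ (∀ i, A i) where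
  carrier := {x | ∃ C : ℝ, ∀ i, ‖x i‖ ≤ C}
  mul_mem' := by
    rintro x y ⟨C, hC⟩ ⟨D, hD⟩
    refine ⟨C * D, fun i => ?_⟩
    rw [Pi.mul_apply]
    exact (norm_mul_le _ _).trans (mul_le_mul (hC i) (hD i) (norm_nonneg _)
      ((norm_nonneg _).trans (hC i)))
  add_mem' := by
    rintro x y ⟨C, hC⟩ ⟨D, hD⟩
    refine ⟨C + D, fun i => ?_⟩
    rw [Pi.add_apply]
    exact (norm_add_le _ _).trans (add_le_add (hC i) (hD i))
  algebraMap_mem' r := by
    refine ⟨‖r‖ * 1, fun i => ?_⟩
    rw [Pi.algebraMap_apply, Algebra.algebraMap_eq_smul_one]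
    refine (norm_smul_le _ _).trans ?_
    refine mul_le_mul_of_nonneg_left ?_ (norm_nonneg _)
    rcases subsingleton_or_nontrivial (A i) with h | h
    · rw [Subsingleton.elim (1 : A i) 0, norm_zero]
      exact zero_le_one
    · exact (CStarRing.norm_one).le
  star_mem' := by
    rintro x ⟨C, hC⟩
    exact ⟨C, fun i => by rw [Pi.star_apply, norm_star]; exact hC i⟩

variable (ω : Ultrafilter ℕ) [∀ i, TracialVN (A i)]

/-- Two bounded sequences are identified if the 2-norm of their difference tends to zero
along `ω`. -/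
noncomputable def nullCon : RingCon (BSeq A) where
  r x y := Tendsto (fun i => two ((x : ∀ i, A i) i - (y : ∀ i, A i) i)) ω (𝓝 0)
  iseqv :=
    { refl := fun x => by simp [two_zero]
      symm := fun {x y} h => by
        refine h.congr fun i => ?_
        rw [two_sub_comm]
      trans := fun {x y z} h1 h2 => by
        have h3 := h1.add h2
        rw [add_zero] at h3
        exact squeeze_zero (fun i => two_nonneg _) (fun i => two_sub_le_sub _ _ _) h3 }
  mul' := by
    rintro x y z w h1 h2
    obtain ⟨C, hC⟩ := z.2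
    obtain ⟨D, hD⟩ := y.2
    have h3 : Tendsto (fun i => two ((x : ∀ i, A i) i - (y : ∀ i, A i) i) * C +
        D * two ((z : ∀ i, A i) i - (w : ∀ i, A i) i)) ω (𝓝 0) := by
      have h4 := (h1.mul_const C).add (h2.const_mul D)
      simpa using h4
    refine squeeze_zero (fun i => two_nonneg _) (fun i => ?_) h3
    change two ((x : ∀ i, A i) i * (z : ∀ i, A i) i - (y : ∀ i, A i) i * (w : ∀ i, A i) i) ≤ _
    have e : (x : ∀ i, A i) i * (z : ∀ i, A i) i - (y : ∀ i, A i) i * (w : ∀ i, A i) i =
        ((x : ∀ i, A i) i - (y : ∀ i, A i) i) * (z : ∀ i, A i) i +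
        (y : ∀ i, A i) i * ((z : ∀ i, A i) i - (w : ∀ i, A i) i) := by noncomm_ring
    rw [e]
    refine (two_add_le _ _).trans (add_le_add ?_ ?_)
    · exact (two_mul_le' _ _).trans (mul_le_mul_of_nonneg_left (hC i) (two_nonneg _))
    · exact (two_mul_le _ _).trans (mul_le_mul_of_nonneg_right (hD i) (two_nonneg _))
  add' := by
    rintro x y z w h1 h2
    have h3 := h1.add h2
    rw [add_zero] at h3
    refine squeeze_zero (fun i => two_nonneg _) (fun i => ?_) h3
    change two (((x : ∀ i, A i) i + (z : ∀ i, A i) i) - ((y : ∀ i, A i) i + (w : ∀ i, A i) i)) ≤ _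
    rw [add_sub_add_comm]
    exact two_add_le _ _

/-- The tracial ultraproduct of the sequence `A` along `ω`: bounded sequences modulo those whose
2-norm tends to zero. -/
def UP : Type _ := (nullCon A ω).Quotient

namespace UP

noncomputable instance instRing : Ring (UP A ω) := inferInstanceAs (Ring (nullCon A ω).Quotient)

noncomputable instance instAlgebra : Algebra ℂ (UP A ω) :=
  inferInstanceAs (Algebra ℂ (nullCon A ω).Quotient)

/-- The class of a bounded sequence. -/
noncomputable def mk : BSeq A →ₐ[ℂ] UP A ω := (nullCon A ω).mkₐ (α := ℂ)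

theorem mk_surjective : Function.Surjective (mk A ω) := (nullCon A ω).mkₐ_surjective

theorem mk_eq_iff {x y : BSeq A} : mk A ω x = mk A ω y ↔
    Tendsto (fun i => two ((x : ∀ i, A i) i - (y : ∀ i, A i) i)) ω (𝓝 0) :=
  (nullCon A ω).eq

theorem star_resp {x y : BSeq A} (h : mk A ω x = mk A ω y) :
    mk A ω (star x) = mk A ω (star y) := by
  rw [mk_eq_iff] at h ⊢
  refine h.congr fun i => ?_
  change _ = two (star ((x : ∀ i, A i) i) - star ((y : ∀ i, A i) i))
  rw [← star_sub, two_star]

noncomputable instance instStar : Star (UP A ω) where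
  star := Quotient.lift (fun x : BSeq A => mk A ω (star x)) fun _ _ h =>
    star_resp A ω ((nullCon A ω).eq.2 h)

theorem star_mk (x : BSeq A) : star (mk A ω x) = mk A ω (star x) := rfl

noncomputable instance instStarRing : StarRing (UP A ω) where
  star_involutive x := by
    obtain ⟨x, rfl⟩ := mk_surjective A ω x
    rw [star_mk, star_mk, star_star]
  star_mul x y := by
    obtain ⟨x, rfl⟩ := mk_surjective A ω x
    obtain ⟨y, rfl⟩ := mk_surjective A ω y
    rw [← map_mul, star_mk, star_mk, star_mk, star_mul, map_mul]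
  star_add x y := by
    obtain ⟨x, rfl⟩ := mk_surjective A ω x
    obtain ⟨y, rfl⟩ := mk_surjective A ω y
    rw [← map_add, star_mk, star_mk, star_mk, star_add, map_add]

instance instStarModule : StarModule ℂ (UP A ω) where
  star_smul c x := by
    obtain ⟨x, rfl⟩ := mk_surjective A ω x
    rw [← map_smul, star_mk, star_mk, star_smul, map_smul]

theorem exists_tendsto_tau (x : BSeq A) :
    ∃ z : ℂ, Tendsto (fun i => tau ((x : ∀ i, A i) i)) ω (𝓝 z) := by
  obtain ⟨C, hC⟩ := x.2
  have hK : IsCompact (Metric.closedBall (0 : ℂ) C) := isCompact_closedBall _ _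
  have h := hK.ultrafilter_le_nhds (ω.map fun i => tau ((x : ∀ i, A i) i)) (by
    rw [Filter.le_principal_iff, Ultrafilter.mem_coe, Ultrafilter.mem_map]
    refine Filter.univ_mem' fun i => ?_
    refine mem_closedBall_zero_iff.2 ?_
    exact (norm_tau_le _).trans ((two_le_norm _).trans (hC i)))
  obtain ⟨z, -, hz⟩ := h
  exact ⟨z, hz⟩

/-- The trace of the ultraproduct: the limit of the traces along `ω`. -/
noncomputable def tr : UP A ω → ℂ :=
  Quotient.lift (fun x : BSeq A => limUnder ω fun i => tau ((x : ∀ i, A i) i)) fun x y h => by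
    obtain ⟨z, hz⟩ := exists_tendsto_tau A ω x
    obtain ⟨w, hw⟩ := exists_tendsto_tau A ω y
    have h1 : Tendsto (fun i => two ((x : ∀ i, A i) i - (y : ∀ i, A i) i)) ω (𝓝 0) := h
    have h2 : Tendsto (fun i => tau ((x : ∀ i, A i) i) - tau ((y : ∀ i, A i) i))
        ω (𝓝 0) := by
      refine squeeze_zero_norm (fun i => ?_) h1
      rw [← map_sub]
      exact norm_tau_le _
    have h3 := tendsto_nhds_unique h2 (hz.sub hw)
    change limUnder _ _ = limUnder _ _
    rw [hz.limUnder_eq, hw.limUnder_eq]
    exact (sub_eq_zero.1 h3.symm)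

theorem tendsto_tr (x : BSeq A) :
    Tendsto (fun i => tau ((x : ∀ i, A i) i)) ω (𝓝 (tr A ω (mk A ω x))) := by
  obtain ⟨z, hz⟩ := exists_tendsto_tau A ω x
  change Tendsto _ _ (𝓝 (limUnder _ _))
  rwa [hz.limUnder_eq]

/-- The 2-norms of a bounded sequence converge to the 2-norm of its class. -/
theorem tendsto_two (x : BSeq A) :
    Tendsto (fun i => two ((x : ∀ i, A i) i) ^ 2) ω
      (𝓝 (tr A ω (star (mk A ω x) * mk A ω x)).re) := by
  rw [star_mk, ← map_mul]
  have h := tendsto_tr A ω (star x * x)
  have h2 := (Complex.continuous_re.tendsto _).comp h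
  refine h2.congr fun i => ?_
  rw [two_sq]
  rfl

end UP

/-- The ultraproduct of the *-subalgebras `D n`: the classes of the norm bounded sequences `x` with
`x n ∈ D n` for all `n`. -/
def upSub (D : ∀ n, StarSubalgebra ℂ (A n)) : Set (UP A ω) :=
  {z | ∃ x : BSeq A, (∀ n, (x : ∀ n, A n) n ∈ D n) ∧ UP.mk A ω x = z}

end UP

end Pool.Agent.TFH
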