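import Pool.Agent.TFH.Defs

/-!
# MP_517fed_an: the definitions of the statement

On top of `TracialVN`, `IsFactorII1`, `NormalRep`, `Bimodule`, `Haagerup` (file `Defs.lean`):

* `lact`, `ract`: the left and right action of a correspondence;
* `PropT M`: property (T) of Connes and Jones;
* `Bdd N`: the norm bounded sequences in `N`; `Near ω`: the 2-norm of the difference tends to zero
  along `ω`; `Ultrapower N ω`: the bounded sequences modulo `Near ω`, a *-algebra, with its trace
  `tr`, the limit of the traces;
* `prodSub ω D`: the classes of the bounded sequences `x` with `x n ∈ D n` for all `n`.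
-/

open Filter Topology

universe u

namespace Pool.Agent.TFH.St

set_option warn.classDefReducibility false

/-! ### Property (T) -/

section
variable {M : Type*} [CStarAlgebra M] [TracialVN M] {H : Type*} [NormedAddCommGroup H]
  [InnerProductSpace ℂ H] [CompleteSpace H]

/-- The left action `x ξ` of a correspondence. -/
noncomputable def lact (B : Bimodule M H) (x : M) (ξ : H) : H := B.l x ξ

/-- The right action `ξ x` of a correspondence. -/
noncomputable def ract (B : Bimodule M H) (x : M) (ξ : H) : H := B.r (MulOpposite.op x) ξ

end

/-- Property (T) of Connes and Jones: for every `ε > 0` there are a finite set `F` and `δ > 0` such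
that for every correspondence `H`, every unit vector `ξ` with `‖x ξ - ξ x‖ < δ` for `x ∈ F` is
within `ε` of a central vector. -/
def PropT (M : Type u) [CStarAlgebra M] [TracialVN M] : Prop :=
  ∀ ε : ℝ, 0 < ε → ∃ (F : Finset M) (δ : ℝ), 0 < δ ∧
    ∀ (H : Type u) [NormedAddCommGroup H] [InnerProductSpace ℂ H] [CompleteSpace H]
      (B : Bimodule M H) (ξ : H), ‖ξ‖ = 1 → (∀ x ∈ F, ‖lact B x ξ - ract B x ξ‖ < δ) →
      ∃ η : H, (∀ x : M, lact B x η = ract B x η) ∧ ‖η - ξ‖ < ε

theorem propT (M : Type u) [CStarAlgebra M] [TracialVN M] (h : PropT M) : PropertyT M := h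

/-! ### The ultrapower -/

section
variable (N : Type*) [CStarAlgebra N]

/-- The type of norm bounded sequences in `N`. -/
def Bdd : Type _ := ↥(BSeq fun _ : ℕ => N)

/-- The ring of norm bounded sequences. -/
noncomputable def instRingBdd : Ring (Bdd N) := SubringClass.toRing (BSeq fun _ : ℕ => N)

attribute [instance] instRingBdd

noncomputable def instAlgebraBdd : Algebra ℂ (Bdd N) := (BSeq fun _ : ℕ => N).algebra

attribute [instance] instAlgebraBdd

noncomputable def instStarBdd : Star (Bdd N) := StarMemClass.instStar (BSeq fun _ : ℕ => N)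

attribute [instance] instStarBdd

variable {N}

/-- The entries of a bounded sequence. -/
def Bdd.at (x : Bdd N) (n : ℕ) : N := x.1 n

variable (ω : Ultrafilter ℕ) [TracialVN N]

/-- The 2-norm of the difference tends to zero along `ω`. -/
def Near (x y : Bdd N) : Prop := Tendsto (fun n => two (x.at n - y.at n)) ω (𝓝 0)

theorem near_equiv : Equivalence (Near ω : Bdd N → Bdd N → Prop) :=
  (nullCon (fun _ : ℕ => N) ω).iseqv

theorem near_mul {w x y z : Bdd N} (h : Near ω w x) (h' : Near ω y z) :
    Near ω (w * y) (x * z) := (nullCon (fun _ : ℕ => N) ω).mul' h h'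

theorem near_add {w x y z : Bdd N} (h : Near ω w x) (h' : Near ω y z) :
    Near ω (w + y) (x + z) := (nullCon (fun _ : ℕ => N) ω).add' h h'

variable (N)

/-- Two bounded sequences are identified if the 2-norm of their difference tends to zero. -/
noncomputable def nul : RingCon (Bdd N) where
  r := Near ω
  iseqv := near_equiv ω
  mul' := near_mul ω
  add' := near_add ω

/-- The tracial ultrapower of `N` along `ω`. -/
def Ultrapower : Type _ := (nul N ω).Quotient

namespace Ultrapower

noncomputable def instRing : Ring (Ultrapower N ω) := (nul N ω).instRingQuotient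

attribute [instance] instRing

noncomputable def instAlgebra : Algebra ℂ (Ultrapower N ω) := (nul N ω).instAlgebraQuotient

attribute [instance] instAlgebra

/-- The class of a bounded sequence. -/
noncomputable def mk (x : Bdd N) : Ultrapower N ω := (nul N ω).toQuotient x

theorem mk_star {x y : Bdd N} (h : Near ω x y) : mk N ω (star x) = mk N ω (star y) :=
  UP.star_resp (fun _ : ℕ => N) ω ((nullCon (fun _ : ℕ => N) ω).eq.2 h)

noncomputable def instStar : Star (Ultrapower N ω) where
  star := Quotient.lift (fun x : Bdd N => mk N ω (star x)) fun _ _ h => mk_star N ω h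

attribute [instance] instStar

/-- The limit of the traces. -/
noncomputable def limTau (x : Bdd N) : ℂ := limUnder (ω : Filter ℕ) fun n => tau (x.at n)

theorem limTau_eq {x y : Bdd N} (h : Near ω x y) : limTau N ω x = limTau N ω y := by
  have h2 := congrArg (UP.tr (fun _ : ℕ => N) ω) ((nullCon (fun _ : ℕ => N) ω).eq.2 h)
  exact h2

variable {N ω} in
/-- The trace of the ultrapower: the limit of the traces. -/
noncomputable def tr : Ultrapower N ω → ℂ := Quotient.lift (limTau N ω) fun _ _ h => limTau_eq N ω h

end Ultrapower

variable {N}

/-- The ultraproduct of the *-subalgebras `D n`: the classes of the norm bounded sequences `x` with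
`x n ∈ D n` for all `n`. -/
def prodSub (D : ℕ → StarSubalgebra ℂ N) : Set (Ultrapower N ω) :=
  {z | ∃ x : Bdd N, (∀ n, x.at n ∈ D n) ∧ Ultrapower.mk N ω x = z}

end

end Pool.Agent.TFH.St
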